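import Pool.Agent.T6.H26.SPMain

set_option autoImplicit false

/-! # Denef's question for every prime: secant varieties of rational normal curves

The definitions are in `Pool/Agent/T6/H26/HTDefs.lean` and `Pool/Agent/T6/H26/SPDefs.lean`. `hankQ N k` are the generators of the product
`∏ t, I_{k t}` of the ideals of the maximal minors of the `k t × (N + 1 - k t)` Hankel matrices
`(x_{i + j})` in the same `N` variables `x_0, ..., x_{N - 1}`: `I_k` is the ideal of the cone over the
`(k - 1)`-st secant variety of the rational normal curve of degree `N - 1`. `TSC HPBase` is the closure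
of these products (`2 * k t < N`) and of the starting classes `PTS` (monomial ideals, ideals of
`ℚ[x, y]`, plane curves, homogeneous cones, ...) under the operations of Thom-Sebastiani type.

For every polynomial `F` with integer coefficients such that the ideal `(F)` is in `TSC HPBase false`
and for EVERY prime `p`, the number `t₀ = -log |T₀| / log p` is a root of `b_F` for every pole `T₀` of
Igusa's Poincare series `∑ a_m (p ^ (-n) T) ^ m` of `F`. This answers Denef's question for these `F`.

Method. The Poincare series is `(1 - T Z(T)) / (1 - T)`, `Z` the zeta function as a rational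
function of `T = p ^ (-s)`. The zeta functions of the products of Hankel determinantal ideals are
computed by a reduction of Hankel matrices over `ℤ_p`: if `i` is the first place with a unit `x_i` and
`2 (i + 1) ≤ N + 1`, then the Hankel block of size `δ = i + 1` is invertible, and the recursion with the
characteristic polynomial of the orthogonal polynomial of degree `δ` (the Lanczos or
Berlekamp-Massey algorithm) transforms the matrix into the sum of this block and of the
product of a **Hankel matrix** `(y_{i + j})`, in `N - 2 δ` variables, with a unitriangular matrix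
(`minI_red`): so all determinantal ideals satisfy `I_{δ + q}(x) = I_q(y)`. The map `x ↦ y` is triangular
(`red_dep`) and so it preserves the measure on the residue class (`tri_mp`). Otherwise the
reversed vector has this property (`piv_rev`). The rational functions are computed by this recursion
(`tower_GG2`): `∏_d (1 - p ^ (-(N - 2 d)) T ^ (∑ t, max (k t - d, 0)))` is a denominator. The numbers
`-(N - 2 d) / ∑ t, max (k t - d, 0)` are roots of all functional equations of the ideal, because they
come from Rees divisors. -/

namespace Pool.Agent.Results.MP_5d9b3c_ag.HankelEveryPrime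

open MvPolynomial Pool.Agent.H628R4.TP Pool.Agent.Y230.PT Pool.Agent.Y230.TH Pool.Agent.T6.H26
open Pool.Agent.Y230.PS Pool.Agent.R852.PP Pool.Agent.W427.SMC Pool.Agent.R779.HK

/-- `∑_j y_j f_j(x) + g(z)`, with further variables `y_j`; the variables `x` and `z` are disjoint. -/
noncomputable def tsForm {σ ι τ : Type} [Fintype ι] (f : ι → MvPolynomial σ ℤ)
    (g : MvPolynomial τ ℤ) : MvPolynomial ((ι ⊕ σ) ⊕ τ) ℤ :=
  rename Sum.inl (∑ j, X (Sum.inl j) * rename Sum.inr (f j) : MvPolynomial (ι ⊕ σ) ℤ) +
    rename Sum.inr g

theorem map_tsForm {σ ι τ : Type} [Fintype σ] [Fintype ι] [Fintype τ]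
    (f : ι → MvPolynomial σ ℤ) (g : MvPolynomial τ ℤ) :
    (⟨(ι ⊕ σ) ⊕ τ, Fin 1, fun _ => map (Int.castRingHom ℚ) (tsForm f g)⟩ : FamQ) =
      Pool.Agent.Y230.TH.tsum ⟨σ, ι, fun j => map (Int.castRingHom ℚ) (f j)⟩ τ
        (map (Int.castRingHom ℚ) g) := by
  unfold Pool.Agent.Y230.TH.tsum tsForm
  congr 1
  funext _
  simp only [map_add, map_sum, map_mul, map_X, map_rename]

/-- **Denef's question for the hypersurfaces of the class `TSC HPBase` and every prime `p`.**
(1) Let `b` satisfy a functional equation `b(s) F ^ s = P(s) F ^ (s + 1)`, for instance `b = b_F`,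
and let `(F)` be in the class `TSC HPBase false`. Then the Poincare series of `F` is the expansion at
`0` of a rational function `Φ`, and for every pole `T₀` of `Φ`, that is, for every root `T₀` of the
reduced denominator of `Φ`, the number `t₀ = -log |T₀| / log p` is a root of `b`.
(2) Let `M_J` be the products of maximal minors, one of the `k t × (N + 1 - k t)` Hankel matrix
`(x_{i + j})` for each `t`, `2 * k t < N`, and let `g ≠ 0` be any polynomial in two variables. Then
the polynomial `∑_J y_J M_J(x_0, ..., x_{N - 1}) + g(z_1, z_2)` is in the class. -/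
theorem result :
    (∀ {V : Type} [Fintype V] (F : MvPolynomial V ℤ)
      (_ : TSC HPBase false ⟨V, Fin 1, fun _ => map (Int.castRingHom ℚ) F⟩)
      (p : ℕ) [Fact p.Prime]
      (b : Polynomial ℂ) (_ : IsBFunction (map (Int.castRingHom ℂ) F) b),
      ∃ Φ : RatFunc ℂ,
        ((Φ.denom : Polynomial ℂ) : PowerSeries ℂ) * poincare p F =
          ((Φ.num : Polynomial ℂ) : PowerSeries ℂ) ∧
        ∀ T₀ : ℂ, Φ.denom.eval T₀ = 0 → b.eval ((-Real.log ‖T₀‖ / Real.log p : ℝ) : ℂ) = 0) ∧
    ∀ (N T : ℕ) (k : Fin T → ℕ) (_ : ∀ t, 2 * k t < N)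
      (g : MvPolynomial (Fin 2) ℤ), g ≠ 0 →
        TSC HPBase false ⟨_, Fin 1, fun _ => map (Int.castRingHom ℚ)
          (tsForm (fun J : (t : Fin T) → HIdx N (k t) => ∏ t, hankR ℤ N (k t) (J t)) g)⟩ := by
  have hmap : ∀ {τ : Type} (g : MvPolynomial τ ℤ), g ≠ 0 → map (Int.castRingHom ℚ) g ≠ 0 := by
    intro τ g hg h0
    exact hg (map_injective _ (RingHom.injective_int _) (by rw [h0, map_zero]))
  refine ⟨fun F hF p _ b hb => zr_poin F (tsc_main hpbase_main false _ hF) b hb, ?_⟩
  intro N T k hk g hg
  rw [map_tsForm]
  have h1 : (fun J : (t : Fin T) → HIdx N (k t) => map (Int.castRingHom ℚ)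
      (∏ t, hankR ℤ N (k t) (J t))) = fun J => ∏ t, hankR ℚ N (k t) (J t) := by
    funext J
    rw [map_prod]
    exact Finset.prod_congr rfl fun t _ => map_hankR _ _ _ _
  rw [h1]
  exact TSC.hyp _ (TSC.ts _ _ _ (TSC.base false _ (HPBase.hank N T k hk))
    (TSC.base true _ (HPBase.pts true _ (PTS.curve _ (hmap g hg)))))

end Pool.Agent.Results.MP_5d9b3c_ag.HankelEveryPrime
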