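import Pool.Agent.T6.H26.PZI

set_option autoImplicit false

/-! # Denef's question for every prime: read-once formulas over arbitrary plane curves

The definition is in `Pool/Agent/T6/H26/PZG.lean` (`ReadOnce`) and `PXV.lean` (`Susp`).

`ReadOnce S F` means that `F` is built with **sums, products, powers, nonzero constant factors and
additive constants, in disjoint sets of variables**, from **arbitrary nonconstant polynomials in two
variables** (non-reduced, degenerate, not weighted homogeneous, with several critical values, ...),
arbitrary nonconstant polynomials in one variable, and weighted homogeneous polynomials of the class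
`Susp` (for example those with an isolated critical point, and the nonzero linear forms
`∑_j y_j f_j(x₁, x₂)` over ideals of `ℚ[x₁, x₂]`). For instance
`F = ((g₁(x₁, y₁) + g₂(x₂, y₂)) ^ 2 g₃(x₃, y₃) - 5) ^ 3 g₄(x₄, y₄) + 7 g₅(x₅, y₅) ^ 4 (g₆(x₆, y₆) + 1)`
for ANY six nonconstant polynomials `g_i` in two variables. For all these `F` with integer coefficients and
for EVERY prime `p`, the number `t₀ = -log |T₀| / log p` is a root of `b_F` for every pole `T₀` of Igusa's
Poincare series `∑ a_m (p ^ (-n) T) ^ m` of `F`. This answers Denef's question for these `F`.

Method. (a) *Exponential sums* (modules `PYA` to `PYI`, `PZB` to `PZH`). Let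
`E_F(u, m) = ∫ exp (2 π i u F(x) / p ^ m) dx`. A polynomial `F` is in the class `XC` if `E_F(u, m)` is a
finite sum `∑_c exp (2 π i u c / p ^ m) D_c(u, m)` over values `c ∈ ℤ_p` of `F`, where `D_c(u, m)` depends
only on `u` modulo a fixed power of `p` and `∑_m D_c(u, m) T ^ m` is a rational function whose poles come
from roots of the REDUCED Bernstein-Sato polynomial of `F - c`, for ALL these values `c`. All plane curves
are in `XC` (`XC_curve`). New here: `XC` is closed under products (`XC.mul`), powers (`XC.pow`) and
additive constants (`XC.addC`), besides sums. For this, the distribution of the values of `F` is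
decomposed, by Fourier inversion, into finitely many pieces, each of them concentrated at one value `c`,
with a transform which is locally constant in `u` (`pieces`); for `c ≠ 0` the radius of the piece is small
in comparison with `|c|` and with the modulus of local constancy, so that the products `(c + t) (c' + t')`
and the powers `(c + t) ^ k` may be linearised (`Ep_ne`, `Ek_ne`).
(b) *Roots* (modules `RAA` to `RAD`, `PZA`). Let `f(x)`, `g(z)` be ANY nonconstant polynomials,
`α` a root of `b_f(s) / (s + 1)` and `β` a root of `b_g(s) / (s + 1)`. Then `α + β` is a root of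
`b_{f + g}(s) / (s + 1)`; if `f`, `g` are replaced by `f - a`, `g - b` with `a, b ≠ 0`, then `α + β` is
also a root of `b_{f g - a b}(s) / (s + 1)` (`FB_mul_ne`), and `α` is a root of
`b_{f ^ k - a ^ k}(s) / (s + 1)` (`FB_pow_ne`). This is proved for all perturbations
`f + g + κ f g` and `f + f ^ 2 R` (`RA.root_mul`, `RA.root_pert`): functional equations of `f` are
relations `q(Θ) 1 ∈ T⁻¹ M_f` in the module `M_f ⊆ ℂ[x][T, T⁻¹]` generated by `1` under `x_i`, `T⁻¹` and the
operators `∂_i + T f_i`, `Θ = T d/dT + T f`, and the perturbation acts by an element of a ring which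
preserves `M_f` and its filtration (`Stb.main`). -/

namespace Pool.Agent.Results.MP_5d9b3c_ag.ReadOnceCurves

open MvPolynomial Pool.Agent.H628R4.TP Pool.Agent.Y230.PT Pool.Agent.Y230.TH Pool.Agent.T6.H26
open Pool.Agent.Y230.PS Pool.Agent.R852.PP Pool.Agent.W427.SMC Pool.Agent.T6.H26.PX

/-- **Denef's question for every prime `p`: read-once formulas over arbitrary plane curves.**
Let `F` be built with sums, products, powers, nonzero constant factors and additive constants from
nonconstant polynomials in two variables and from weighted homogeneous polynomials of the class `Susp`,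
in disjoint sets of variables (`ReadOnce S F`). Let `b` satisfy a functional equation
`b(s) F ^ s = P(s) F ^ (s + 1)`, for instance `b = b_F`. Then the Poincare series of `F` is the
expansion at `0` of a rational function `Φ`, and for every pole `T₀` of `Φ`, that is, for every root `T₀`
of the reduced denominator of `Φ`, the number `t₀ = -log |T₀| / log p` is a root of `b`. -/
theorem result {V : Type} [Fintype V] [DecidableEq V] (F : MvPolynomial V ℤ) (S : Finset V)
    (hF : ReadOnce S (map (Int.castRingHom ℚ) F)) (p : ℕ) [Fact p.Prime]
    (b : Polynomial ℂ) (hb : IsBFunction (map (Int.castRingHom ℂ) F) b) :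
    ∃ Φ : RatFunc ℂ,
      ((Φ.denom : Polynomial ℂ) : PowerSeries ℂ) * poincare p F =
        ((Φ.num : Polynomial ℂ) : PowerSeries ℂ) ∧
      ∀ T₀ : ℂ, Φ.denom.eval T₀ = 0 → b.eval ((-Real.log ‖T₀‖ / Real.log p : ℝ) : ℂ) = 0 :=
  mg_poin F (ro_MG S _ hF) b hb

end Pool.Agent.Results.MP_5d9b3c_ag.ReadOnceCurves
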