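import Pool.Agent.T6.H26.FTRead

set_option autoImplicit false

/-! # Denef's question for every prime: sums, products and powers in disjoint variables

The definitions are in `Pool/Agent/T6/H26/FTDefs.lean`. `IsoCrit g w d` says that the polynomial `g` is
weighted homogeneous of degree `d`, for positive weights `w_i < d`, and that the origin is the only
common zero of its partial derivatives in `ℂ ^ (n + 1)`; for example all forms of degree at least 2
which define smooth projective hypersurfaces. `Built S F` says that the polynomial `F` is obtained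
with **sums, products, powers** (exponents at least 1) and nonzero constant factors from such
polynomials `g`, from the linear forms `∑ y_j f_j(x₁, x₂)` over arbitrary nonzero ideals `(f_j)` of
`ℚ[x₁, x₂]`, and from variables, all **in disjoint sets of variables**; `S` is the set of the
variables. For instance
`F = (q(x) ^ 2 + (∑ y_j f_j(z)) ^ 3) ^ 4 + c(u) v ^ 5`,
where `q` is a nondegenerate quadratic form and `c` is a form defining a smooth cubic hypersurface. For
these polynomials with integer coefficients and for EVERY prime `p`, the number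
`t₀ = -log |T₀| / log p` is a root of `b_F` for every pole `T₀` of Igusa's Poincare series
`∑ a_m (p ^ (-n) T) ^ m` of `F`. This answers Denef's question for these `F`.

More generally, this is proved for three classes `RO c` of ideals (`c = Kd.idl`) and hypersurfaces
(`c = Kd.hyp`, `c = Kd.exh`), which contain the starting class `PTS` (monomial ideals, ideals of
`ℚ[x, y]`, plane curves, homogeneous cones, ...) and are closed under the operations of `PTS`. The new
class `RO Kd.exh` contains the polynomials in `IsoCrit` and all the products of powers of linear forms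
`∏_t (∑_j y_{t, j} f_{t, j}(x)) ^ a_t` in new variables `y_{t, j}`, if the ideal `∏_t (f_{t, j})_j ^ a_t`
is in `RO Kd.idl`, and it is closed under **sums** `g₁(x) + g₂(z)`, products `g₁(x) g₂(z)` in disjoint
variables, powers, and constant factors.

Method. (a) `p`-adic part. Let `E_g(u, m) = ∫ exp (2 π i u g(x) / p ^ m) dx` for units `u` of `ℤ_p`.
For all `g` in `RO Kd.exh`, `E_g(u, m)` depends only on `u` modulo a fixed power of `p`, and
`∑_m E_g(u, m) T ^ m` is a rational function whose poles `T₀` give roots `t₀` of the REDUCED
polynomial `b_g(s) / (s + 1)`. For sums, `E` is multiplicative and the poles are controlled by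
Hadamard products. For products and powers one uses the distribution of the angular component of
`g`, which is computed from `E_g` by Fourier inversion (`Ab_mem`) and is invariant under
multiplication by a subgroup `1 + p ^ c ℤ_p` (`inv_int`). For linear forms in new variables the
distribution is computed by the uniqueness of the Haar measure (`lh_map`). For `g` in `IsoCrit`,
`E_g(u, m) = p ^ (-∑ w_i) E_g(u, m - d) + D(u, m)` with `D(u, m) = 0` for large `m` (`Df_zero`).
(b) Roots. If `f` is weighted homogeneous of positive degree, `g` is arbitrary, `α` is a root of the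
reduced `b_f(s) / (s + 1)` and `β` is a root of `b_g(s) / (s + 1)`, then `α + β` is a root of
`b_{f(x) + g(z)}(s) / (s + 1)` (`fe_sum`, `FK_addE`); if `b_g(-k) = 0` and `k ≥ 2`, then `-1` is a
double root of `b_{g ^ k}` (`isB_pow_strong`); for `g` in `IsoCrit`, `-(∑ w_i) / d` is a root of
`b_g(s) / (s + 1)` (`RD`, by the Koszul complex of the partial derivatives, `koszul`, `noexact`). -/

namespace Pool.Agent.Results.MP_5d9b3c_ag.SumsProductsEveryPrime

open MvPolynomial Pool.Agent.H628R4.TP Pool.Agent.Y230.PT Pool.Agent.Y230.TH Pool.Agent.T6.H26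
open Pool.Agent.Y230.PS Pool.Agent.R852.PP Pool.Agent.W427.SMC

/-- **Denef's question for every prime `p`: sums, products and powers in disjoint variables.**
(1) Let `F` be built with sums, products, powers and constant factors from weighted homogeneous
polynomials with an isolated critical point, from linear forms `∑ y_j f_j(x₁, x₂)` over ideals
`(f_j)` of `ℚ[x₁, x₂]`, and from variables, in disjoint sets of variables (`Built S F`). Let `b`
satisfy a functional equation `b(s) F ^ s = P(s) F ^ (s + 1)`, for instance `b = b_F`. Then the
Poincare series of `F` is the expansion at `0` of a rational function `Φ`, and for every pole `T₀` of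
`Φ`, that is, for every root `T₀` of the reduced denominator of `Φ`, the number
`t₀ = -log |T₀| / log p` is a root of `b`.
(2) The same is true if `(F)` is in one of the classes `RO c`. -/
theorem result :
    (∀ {V : Type} [Fintype V] [DecidableEq V] (F : MvPolynomial V ℤ) (S : Finset V)
      (_ : Built S (map (Int.castRingHom ℚ) F))
      (p : ℕ) [Fact p.Prime]
      (b : Polynomial ℂ) (_ : IsBFunction (map (Int.castRingHom ℂ) F) b),
      ∃ Φ : RatFunc ℂ,
        ((Φ.denom : Polynomial ℂ) : PowerSeries ℂ) * poincare p F =
          ((Φ.num : Polynomial ℂ) : PowerSeries ℂ) ∧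
        ∀ T₀ : ℂ, Φ.denom.eval T₀ = 0 → b.eval ((-Real.log ‖T₀‖ / Real.log p : ℝ) : ℂ) = 0) ∧
    ∀ {V : Type} [Fintype V] (F : MvPolynomial V ℤ) (c : Kd)
      (_ : RO c ⟨V, Fin 1, fun _ => map (Int.castRingHom ℚ) F⟩)
      (p : ℕ) [Fact p.Prime]
      (b : Polynomial ℂ) (_ : IsBFunction (map (Int.castRingHom ℂ) F) b),
      ∃ Φ : RatFunc ℂ,
        ((Φ.denom : Polynomial ℂ) : PowerSeries ℂ) * poincare p F =
          ((Φ.num : Polynomial ℂ) : PowerSeries ℂ) ∧
        ∀ T₀ : ℂ, Φ.denom.eval T₀ = 0 →
          b.eval ((-Real.log ‖T₀‖ / Real.log p : ℝ) : ℂ) = 0 := by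
  have key : ∀ {V : Type} [Fintype V] (F : MvPolynomial V ℤ)
      (_ : RO Kd.idl ⟨V, Fin 1, fun _ => map (Int.castRingHom ℚ) F⟩)
      (p : ℕ) [Fact p.Prime]
      (b : Polynomial ℂ) (_ : IsBFunction (map (Int.castRingHom ℂ) F) b),
      ∃ Φ : RatFunc ℂ,
        ((Φ.denom : Polynomial ℂ) : PowerSeries ℂ) * poincare p F =
          ((Φ.num : Polynomial ℂ) : PowerSeries ℂ) ∧
        ∀ T₀ : ℂ, Φ.denom.eval T₀ = 0 →
          b.eval ((-Real.log ‖T₀‖ / Real.log p : ℝ) : ℂ) = 0 := by
    intro V _ F hF p _ b hb
    refine zr_poin F ?_ b hb
    obtain ⟨h1, h2⟩ := ro_main (p := p) Kd.idl _ hF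
    exact ⟨h1, by simpa using h2⟩
  exact ⟨fun F S hF p _ b hb => key F (built_idl S _ hF) p b hb,
    fun F c hF p _ b hb => key F (ro_idl c _ hF) p b hb⟩

end Pool.Agent.Results.MP_5d9b3c_ag.SumsProductsEveryPrime
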