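import Pool.Agent.T6.H40.EPC

/-!
# Denef's question for towers of compositions, for every prime, with orders

Let `q_1, …, q_κ` and `Φ` be polynomials in `ℤ[x, z]`, `x = (x_1, …, x_n)`, `z = (z_1, …, z_κ)`, where
`q_i` involves only the variables `z_j` with `j < i`. They define a tower of compositions
`g_1(x) = q_1(x)`, `g_2(x) = q_2(x, g_1(x))`, …, `f(x) = Φ(x, g_1(x), …, g_κ(x))`. If the exponents of
the polynomial

  `u Φ(x, z) + ∑_i y_i (z_i - q_i(x, z))`

in the variables `x, u, y, z` are affinely independent, then Denef's question has a positive answer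
for `f` and for EVERY prime `p`, also for the orders of the poles: there is no condition on the
coefficients, no prime is excluded. These polynomials are in general degenerate for their Newton
polyhedra in all coordinates; their singularities need not be isolated and they need not be reduced.

Examples: `(y ^ 2 - x ^ 3) ^ 2 + x ^ 5 y` (plane curves are known: Loeser), and for `n ≥ 3`
`(x_1 ^ 2 + x_2 ^ 3) ^ 5 + x_3 ^ 7`, `x_3 ^ 3 (x_1 ^ 2 + x_2 ^ 3) ^ 2 + (x_1 ^ 5 + x_4 ^ 3) ^ 4 x_2 ^ 7`,
`(x_1 ^ a + (x_2 ^ b + x_3 ^ c) ^ d) ^ e + x_4 ^ m`, with arbitrary nonzero coefficients. (The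
condition bounds the number of the monomials: `Φ` and the `q_i` have together at most `n + κ + 1`.)

Method. `u f(x) + ∑_i y_i z_i` is the polynomial above, up to an automorphism over `ℤ` (a triangular
one, and one which absorbs the terms divisible by `z`). The numbers of solutions of the congruences
modulo `p ^ m` and the functional equations of `f` and of `u f + ∑_i y_i z_i` are related by exact
formulas (from the starting library, `Pool.Agent.W206.CU`), which shift the poles and the roots by
`κ`; for affinely independent exponents the starting library has the theorem for every prime.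
-/

set_option autoImplicit false

namespace Pool.Agent.Results.MP_5d9b3c_ag.TowersEveryPrime

open MvPolynomial Pool.Agent.W206.CU Pool.Agent.T6.H40

/-- **Denef's question for towers of compositions, every prime `p`, with orders.**

`Tri q`: `q_i` involves only the variables `z_j` with `j < i`.
`towerU Φ q = u Φ(x, z) + ∑_i y_i (z_i - q_i(x, z))`; `spaV v a = ∑_j a_j X ^ (v j)`.
`aeval (Sum.elim X g) P = P(x, g_1(x), …, g_κ(x))`.
`poincare p f = ∑_m a_m (p ^ (-n) T) ^ m`, `a_m` the number of zeros of `f` modulo `p ^ m`.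
`IsPoleOfOrder P T₀ μ`, `μ > 0`: `P = A / ((T - T₀) ^ μ B)` with polynomials `A`, `B` which do not
vanish at `T₀`. `IsBFunction f b`: `b(s) f ^ s = P(s) f ^ (s + 1)` for a differential operator `P(s)`
in the Weyl algebra, polynomial in `s`; the Bernstein-Sato polynomial `b_f` is one of these `b`. -/
theorem result {n κ r : ℕ} (hκ : 1 ≤ κ) (hr : 2 ≤ r)
    -- the tower of compositions
    (Φ : MvPolynomial (Fin n ⊕ Fin κ) ℤ) (q : Fin κ → MvPolynomial (Fin n ⊕ Fin κ) ℤ)
    (hq : Tri q) (g : Fin κ → MvPolynomial (Fin n) ℤ)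
    (hg : ∀ i, g i = aeval (Sum.elim X g) (q i))
    (f : MvPolynomial (Fin n) ℤ) (hf : f = aeval (Sum.elim X g) Φ) (hf0 : f ≠ 0)
    -- the exponents are affinely independent
    (v : Fin r → (Fin n ⊕ Unit) ⊕ (Fin κ ⊕ Fin κ) → ℕ)
    (hv : AffineIndependent ℚ
      (fun (j : Fin r) (i : (Fin n ⊕ Unit) ⊕ (Fin κ ⊕ Fin κ)) => (v j i : ℚ)))
    (a : Fin r → ℤ) (ha : ∀ j, a j ≠ 0) (hF : towerU Φ q = spaV v a) :
    ∀ p : ℕ, p.Prime →
      ∀ (T₀ : ℂ) (μ : ℕ), 0 < μ → IsPoleOfOrder (poincare p f) T₀ μ →
      ∀ b : Polynomial ℂ, b ≠ 0 →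
        Pool.Agent.H628R4.TP.IsBFunction (map (Int.castRingHom ℂ) f) b →
        μ ≤ b.rootMultiplicity ((-Real.log ‖T₀‖ / Real.log p : ℝ) : ℂ) :=
  fun p hp T₀ μ hμ hP b hb0 hb =>
    tower_main hκ hr Φ q hq g hg f hf hf0 v hv a ha hF p hp T₀ μ hμ hP b hb0 hb

end Pool.Agent.Results.MP_5d9b3c_ag.TowersEveryPrime
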